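import Pool.Agent.X201.KW.AspFS

/-!
# Products of conjugacy classes in `G` and in `H`: systems which are aspherical over a quotient

Let `Θ : G → V ≀ Q` be a homomorphism to a restricted wreath product (`V` abelian) whose second
coordinate is onto, and let `w_0, ..., w_(n-1)` be a system over `G` in `n` unknowns; it defines
`H = G * F(t_0, ..., t_(n-1)) / << w_0, ..., w_(n-1) >>`.  Suppose that the system `v_j` which it
induces over `Q` is good: `Q` embeds in `P = Q * F(t_0, ..., t_(n-1)) / << v_0, ..., v_(n-1) >>` and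
the relative presentation is aspherical, i.e. the rows of its matrix of Fox derivatives are linearly
independent over `ℤP`; or suppose that this is true for the systems induced over enough quotients of
`Q`.  If `g_1, ..., g_r` are mapped to the base group and `1 ∈ ∏ g_i^H`, then a product of
`G`-conjugates of `g_1, ..., g_r` is mapped to `1`.  For `G = V ≀ Q` this is
`1 ∈ ∏ g_i^H → 1 ∈ ∏ g_i^G`; for free groups `G` and elements of a normal subgroup `N` one gets the
implication modulo `[N,N]`.  There are no assumptions on the determinant of the system, nor on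
finite quotients of `Q`.

Systems with free sides in a covering are good, e.g. single equations such that one side of the
2-cell is strictly the lowest one for some left invariant order.
-/

set_option autoImplicit false

open Monoid
open Pool.Agent.X201.KW (Wr Asph toPP OneMin)
open Pool.Agent.X237.FS (Letter val Grp FreeSides)

namespace Pool.Agent.Results.MP_9999b4_al.AsphericalQuotients

/-- the group `H = G * F(t_0, ..., t_(n-1)) / << w_0, ..., w_(n-1) >>` -/
abbrev Ext {G : Type} [Group G] {n : ℕ} (w : Fin n → Coprod G (FreeGroup (Fin n))) :=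
  Coprod G (FreeGroup (Fin n)) ⧸ Subgroup.normalClosure (Set.range w)

/-- the map `G → H` -/
def toExt {G : Type} [Group G] {n : ℕ} (w : Fin n → Coprod G (FreeGroup (Fin n))) : G →* Ext w :=
  (QuotientGroup.mk' (Subgroup.normalClosure (Set.range w))).comp Coprod.inl

/-- `1 ∈ ∏ g_i^H` -/
def OneInExt {G : Type} [Group G] {n : ℕ} (w : Fin n → Coprod G (FreeGroup (Fin n))) {r : ℕ}
    (g : Fin r → G) : Prop :=
  ∃ h : Fin r → Ext w, (List.ofFn fun i => h i * toExt w (g i) * (h i)⁻¹).prod = 1

/-- the system over `Q` induced by a system over `G` and a homomorphism `G → Q` -/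
def induced {G Q : Type} [Group G] [Group Q] (φ : G →* Q) {n : ℕ}
    (w : Fin n → Coprod G (FreeGroup (Fin n))) : Fin n → Coprod Q (FreeGroup (Fin n)) :=
  fun j => Coprod.map φ (MonoidHom.id (FreeGroup (Fin n))) (w j)

/-- `Q` embeds in the group `P` of the system, and the relative presentation is aspherical -/
def Good {Q : Type} [Group Q] {n : ℕ} (v : Fin n → Coprod Q (FreeGroup (Fin n))) : Prop :=
  Function.Injective (toExt v) ∧ Asph v

theorem part1 (V Q G : Type) [AddCommGroup V] [Group Q] [Group G] (Θ : G →* Wr V Q)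
    (hΘ : ∀ x : Q, ∃ y : G, (Θ y).a = x) (n : ℕ) (w : Fin n → Coprod G (FreeGroup (Fin n)))
    (hres : ∀ B : Finset Q, ∃ (Q' : Type) (_ : Group Q') (π : Q →* Q'),
      (∀ b ∈ B, π b = 1 → b = 1) ∧ Good (induced ((π.comp Wr.proj).comp Θ) w))
    (r : ℕ) (g : Fin r → G) (hg : ∀ i, (Θ (g i)).a = 1) (h : OneInExt w g) :
    ∃ x : Fin r → G, Θ (List.ofFn fun i => x i * g i * (x i)⁻¹).prod = 1 := by
  refine Pool.Agent.X201.KW.key3 Θ hΘ n w (fun B => ?_) r g hg h
  obtain ⟨Q', _, π, hπ, hi, ha⟩ := hres B
  exact ⟨Q', inferInstance, π, hπ, hi, ha⟩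

theorem part2 (G : Type) [Group G] [IsFreeGroup G] (N : Subgroup G) [N.Normal] (n : ℕ)
    (w : Fin n → Coprod G (FreeGroup (Fin n))) (hgood : Good (induced (QuotientGroup.mk' N) w))
    (r : ℕ) (g : Fin r → G) (hg : ∀ i, g i ∈ N) (h : OneInExt w g) :
    ∃ x : Fin r → G, (List.ofFn fun i => x i * g i * (x i)⁻¹).prod ∈ ⁅N, N⁆ := by
  obtain ⟨Θ, h1, h2⟩ := Pool.Agent.X201.KW.magnus G N
  have e : ((MonoidHom.id (G ⧸ N)).comp (Wr.proj : Wr _ (G ⧸ N) →* G ⧸ N)).comp Θ =
      QuotientGroup.mk' N := MonoidHom.ext fun y => h1 y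
  obtain ⟨x, hx⟩ := part1 _ _ G Θ (fun x => by
    obtain ⟨y, rfl⟩ := QuotientGroup.mk_surjective x
    exact ⟨y, h1 y⟩) n w
    (fun B => ⟨G ⧸ N, inferInstance, MonoidHom.id _, fun b _ hb => hb, by rw [e]; exact hgood⟩) r g
    (fun i => by rw [h1]; exact (QuotientGroup.eq_one_iff _).2 (hg i)) h
  exact ⟨x, h2 _ hx⟩

/-- `Wr V Q` is the restricted wreath product of the abelian group `V` and the group `Q`.
`w_j` (`j < n`) is a system over `G` in the unknowns `t_i` (`i < n`), and `H` the group it defines.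

(1) Let `Θ : G → V ≀ Q` be a homomorphism whose second coordinate is onto.  Assume that for every
finite subset `B` of `Q` there is a homomorphism `π : Q → Q'` which maps no nontrivial element of
`B` to `1` and such that the system over `Q'` induced by `w` is good.  Let `g_1, ..., g_r` in `G`
have images in the base group.  If `1 ∈ ∏ g_i^H`, then `Θ (∏ x_i g_i x_i⁻¹) = 1` for some `x_i` in
`G`.
(2) The case `G = V ≀ Q`, `Q' = Q`: if the system over `Q` induced by `w` is good, `g_1, ..., g_r`
are in the base group and `1 ∈ ∏ g_i^H`, then `1 ∈ ∏ g_i^G`.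
(3) Let `G` be a free group, `N` a normal subgroup such that the system over `G/N` induced by `w` is
good, and `g_1, ..., g_r` in `N`.  If `1 ∈ ∏ g_i^H` then `∏ x_i g_i x_i⁻¹` lies in `[N,N]` for some
`x_i` in `G`.
(4) Let `r_j` be words in the unknowns, their inverses and elements of `Q`, and `ρ` a homomorphism
from the group `P` of the system to a group `A`.  If every nonempty finite set of 2-cells of the
covering belonging to `ρ` has a free side, then the system is good.
(5) This is so if `n = 1`, `A` has a left invariant linear order, and one side of the 2-cell `r_0` in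
this covering lies strictly below all its other sides. -/
theorem result :
    (∀ (V Q G : Type) [AddCommGroup V] [Group Q] [Group G] (Θ : G →* Wr V Q),
      (∀ x : Q, ∃ y : G, (Θ y).a = x) → ∀ (n : ℕ) (w : Fin n → Coprod G (FreeGroup (Fin n))),
      (∀ B : Finset Q, ∃ (Q' : Type) (_ : Group Q') (π : Q →* Q'),
        (∀ b ∈ B, π b = 1 → b = 1) ∧ Good (induced ((π.comp Wr.proj).comp Θ) w)) →
      ∀ (r : ℕ) (g : Fin r → G), (∀ i, (Θ (g i)).a = 1) → OneInExt w g →
      ∃ x : Fin r → G, Θ (List.ofFn fun i => x i * g i * (x i)⁻¹).prod = 1) ∧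
    (∀ (V Q : Type) [AddCommGroup V] [Group Q] (n : ℕ)
      (w : Fin n → Coprod (Wr V Q) (FreeGroup (Fin n))), Good (induced Wr.proj w) →
      ∀ (r : ℕ) (g : Fin r → Wr V Q), (∀ i, (g i).a = 1) → OneInExt w g →
      ∃ x : Fin r → Wr V Q, (List.ofFn fun i => x i * g i * (x i)⁻¹).prod = 1) ∧
    (∀ (G : Type) [Group G] [IsFreeGroup G] (N : Subgroup G) [N.Normal] (n : ℕ)
      (w : Fin n → Coprod G (FreeGroup (Fin n))), Good (induced (QuotientGroup.mk' N) w) →
      ∀ (r : ℕ) (g : Fin r → G), (∀ i, g i ∈ N) → OneInExt w g →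
      ∃ x : Fin r → G, (List.ofFn fun i => x i * g i * (x i)⁻¹).prod ∈ ⁅N, N⁆) ∧
    (∀ (Q A : Type) [Group Q] [Group A] (n : ℕ) (r : Fin n → List (Letter Q (Fin n)))
      (ρ : Grp r →* A), FreeSides r ρ → Good fun j => val (r j)) ∧
    (∀ (Q A : Type) [Group Q] [Group A] [LinearOrder A] (r : List (Letter Q (Fin 1)))
      (ρ : Grp (fun _ : Fin 1 => r) →* A), OneMin r ρ → Good fun _ : Fin 1 => val r) := by
  have h4 : ∀ (Q A : Type) [Group Q] [Group A] (n : ℕ) (r : Fin n → List (Letter Q (Fin n)))
      (ρ : Grp r →* A), FreeSides r ρ → Good fun j => val (r j) := by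
    intro Q A _ _ n r ρ h
    exact ⟨Pool.Agent.X201.KW.inj_of_freeSides ρ h, Pool.Agent.X201.KW.asph_of_freeSides ρ h⟩
  refine ⟨fun V Q G _ _ _ Θ hΘ n w hq r g hg h => part1 V Q G Θ hΘ n w hq r g hg h, ?_,
    fun G _ _ N _ n w hq r g hg h => part2 G N n w hq r g hg h, h4, ?_⟩
  · intro V Q _ _ n w hgood r g hg h
    obtain ⟨x, hx⟩ := part1 V Q (Wr V Q) (MonoidHom.id _) (fun x => ⟨⟨0, x⟩, rfl⟩) n w
      (fun B => ⟨Q, inferInstance, MonoidHom.id _, fun b _ hb => hb, hgood⟩) r g hg h
    exact ⟨x, hx⟩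
  · intro Q A _ _ _ r ρ h
    exact h4 Q A 1 (fun _ => r) ρ (Pool.Agent.X201.KW.freeSides_of_oneMin r ρ h)

end Pool.Agent.Results.MP_9999b4_al.AsphericalQuotients
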