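import Pool.Agent.X201.KW.Met3

/-!
# Products of conjugacy classes under Kervaire extensions: tuples in metabelian groups

Let `A` be an abelian normal subgroup of a group `G`, and let `g_1, ..., g_r` be elements of `G`
which are central modulo `A`, for instance any elements if `G/A` is abelian.  Let `H` be a Kervaire
extension of `G`.  If the index of `A⟨g_1, ..., g_r⟩` in `G` is a power of a prime which does not
divide the determinant of the system, in particular if `g_1, ..., g_r` generate `G` modulo `A`, then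
`1 ∈ ∏ g_i^H` implies `1 ∈ ∏ g_i^G`.  The same holds modulo `[N,N]` for a free group `G` and a normal
subgroup `N`, if the `g_i` are central modulo `N` and `G/(N⟨g_1, ..., g_r⟩)` is residually a finite
`q`-group, `q` a prime not dividing the determinant; e.g. modulo `G''` for arbitrary `g_i`.
-/

set_option autoImplicit false

open Monoid
open scoped commutatorElement
open Pool.Agent.X201.KW (ResMod)

namespace Pool.Agent.Results.MP_9999b4_al.MetabelianTuples

variable {G : Type} [Group G] {n : ℕ}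

/-- the exponent sum of `t_i` in an element of `G * F(t_0, ..., t_(n-1))` -/
def expSum (i : Fin n) (w : Coprod G (FreeGroup (Fin n))) : ℤ :=
  Multiplicative.toAdd (Coprod.lift (1 : G →* Multiplicative ℤ)
    (FreeGroup.lift fun k : Fin n => if k = i then Multiplicative.ofAdd (1 : ℤ) else 1) w)

/-- the determinant of exponent sums -/
def det (w : Fin n → Coprod G (FreeGroup (Fin n))) : ℤ :=
  (Matrix.of fun i j : Fin n => expSum i (w j)).det

/-- the group `H = G * F(t_0, ..., t_(n-1)) / << w_0, ..., w_(n-1) >>` -/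
abbrev Ext (w : Fin n → Coprod G (FreeGroup (Fin n))) :=
  Coprod G (FreeGroup (Fin n)) ⧸ Subgroup.normalClosure (Set.range w)

/-- the map `G → H` -/
def toExt (w : Fin n → Coprod G (FreeGroup (Fin n))) : G →* Ext w :=
  (QuotientGroup.mk' (Subgroup.normalClosure (Set.range w))).comp Coprod.inl

/-- `1 ∈ ∏ g_i^H` -/
def OneInExt (w : Fin n → Coprod G (FreeGroup (Fin n))) {r : ℕ} (g : Fin r → G) : Prop :=
  ∃ h : Fin r → Ext w, (List.ofFn fun i => h i * toExt w (g i) * (h i)⁻¹).prod = 1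

theorem coprime_of {q : ℕ} (hq : q.Prime) {d : ℤ} (hd : ¬ (q : ℤ) ∣ d) : IsCoprime d (q : ℤ) := by
  have h1 : IsCoprime (q : ℤ) d := (Nat.prime_iff_prime_int.1 hq).coprime_iff_not_dvd.2 hd
  exact h1.symm

theorem exists_prime {d : ℤ} (hd : d ≠ 0) : ∃ q : ℕ, q.Prime ∧ ¬ (q : ℤ) ∣ d := by
  obtain ⟨q, hq1, hq⟩ := Nat.exists_infinite_primes (d.natAbs + 1)
  refine ⟨q, hq, fun hdvd => ?_⟩
  have h2 := Nat.le_of_dvd (Int.natAbs_pos.mpr hd) (Int.natCast_dvd.1 hdvd)
  omega

/-- Let `A` be an abelian normal subgroup of a group `G`, `w_j` (`j < n`) a system over `G` in the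
unknowns `t_i` (`i < n`), and `g_1, ..., g_r` elements of `G` with `[y, g_i]` in `A` for all `y` in
`G`.

(1) If the index of `A⟨g_1, ..., g_r⟩` is a power of a prime `q` which does not divide the
determinant of the system, then `1 ∈ ∏ g_i^H` implies `1 ∈ ∏ g_i^G`.
(2) If `A` and `g_1, ..., g_r` generate `G`, this holds for all nonsingular systems.
(3) Put `R = A⟨g_1, ..., g_r⟩`.  If `∏ x_i g_i x_i⁻¹` lies in `[R,R]` for some `x_i` in `G`, then
`1 ∈ ∏ g_i^G`.
(4) Let `G` be a free group, `N` a normal subgroup and `g_1, ..., g_r` elements of `G` with `[y, g_i]`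
in `N` for all `y` in `G`, such that `N⟨g_1, ..., g_r⟩` is an intersection of kernels of homomorphisms
to finite `q`-groups, for a prime `q` not dividing the determinant.  If `1 ∈ ∏ g_i^H`, then
`∏ x_i g_i x_i⁻¹` lies in `[N,N]` for some `x_i` in `G`.
(5) The case `N = G'`: here `g_1, ..., g_r` are arbitrary, and `[N,N] = G''`. -/
theorem result :
    (∀ (G : Type) [Group G] (A : Subgroup G) [A.Normal], (∀ a ∈ A, ∀ b ∈ A, a * b = b * a) →
      ∀ (n : ℕ) (w : Fin n → Coprod G (FreeGroup (Fin n))) (r : ℕ) (g : Fin r → G),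
      (∀ (y : G) (i : Fin r), ⁅y, g i⁆ ∈ A) →
      (∃ q : ℕ, q.Prime ∧ ¬ (q : ℤ) ∣ det w ∧
        ∃ k : ℕ, (A ⊔ Subgroup.closure (Set.range g)).index = q ^ k) →
      OneInExt w g → ∃ x : Fin r → G, (List.ofFn fun i => x i * g i * (x i)⁻¹).prod = 1) ∧
    (∀ (G : Type) [Group G] (A : Subgroup G) [A.Normal], (∀ a ∈ A, ∀ b ∈ A, a * b = b * a) →
      ∀ (n : ℕ) (w : Fin n → Coprod G (FreeGroup (Fin n))) (r : ℕ) (g : Fin r → G),
      (∀ (y : G) (i : Fin r), ⁅y, g i⁆ ∈ A) → A ⊔ Subgroup.closure (Set.range g) = ⊤ →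
      det w ≠ 0 →
      OneInExt w g → ∃ x : Fin r → G, (List.ofFn fun i => x i * g i * (x i)⁻¹).prod = 1) ∧
    (∀ (G : Type) [Group G] (A : Subgroup G) [A.Normal], (∀ a ∈ A, ∀ b ∈ A, a * b = b * a) →
      ∀ (r : ℕ) (g : Fin r → G), (∀ (y : G) (i : Fin r), ⁅y, g i⁆ ∈ A) →
      (∃ x : Fin r → G, (List.ofFn fun i => x i * g i * (x i)⁻¹).prod ∈
        ⁅A ⊔ Subgroup.closure (Set.range g), A ⊔ Subgroup.closure (Set.range g)⁆) →
      ∃ x : Fin r → G, (List.ofFn fun i => x i * g i * (x i)⁻¹).prod = 1) ∧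
    (∀ (G : Type) [Group G] [IsFreeGroup G] (N : Subgroup G) [N.Normal] (n : ℕ)
      (w : Fin n → Coprod G (FreeGroup (Fin n))) (r : ℕ) (g : Fin r → G),
      (∀ (y : G) (i : Fin r), ⁅y, g i⁆ ∈ N) →
      (∃ q : ℕ, q.Prime ∧ ¬ (q : ℤ) ∣ det w ∧
        ResMod q (N ⊔ Subgroup.closure (Set.range g))) →
      OneInExt w g →
      ∃ x : Fin r → G, (List.ofFn fun i => x i * g i * (x i)⁻¹).prod ∈ ⁅N, N⁆) ∧
    (∀ (G : Type) [Group G] [IsFreeGroup G] (n : ℕ) (w : Fin n → Coprod G (FreeGroup (Fin n)))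
      (r : ℕ) (g : Fin r → G),
      (∃ q : ℕ, q.Prime ∧ ¬ (q : ℤ) ∣ det w ∧
        ResMod q (commutator G ⊔ Subgroup.closure (Set.range g))) →
      OneInExt w g →
      ∃ x : Fin r → G, (List.ofFn fun i => x i * g i * (x i)⁻¹).prod ∈ derivedSeries G 2) := by
  have h1 : ∀ (G : Type) [Group G] (A : Subgroup G) [A.Normal], (∀ a ∈ A, ∀ b ∈ A, a * b = b * a) →
      ∀ (n : ℕ) (w : Fin n → Coprod G (FreeGroup (Fin n))) (r : ℕ) (g : Fin r → G),
      (∀ (y : G) (i : Fin r), ⁅y, g i⁆ ∈ A) →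
      (∃ q : ℕ, q.Prime ∧ ¬ (q : ℤ) ∣ det w ∧
        ∃ k : ℕ, (A ⊔ Subgroup.closure (Set.range g)).index = q ^ k) →
      OneInExt w g → ∃ x : Fin r → G, (List.ofFn fun i => x i * g i * (x i)⁻¹).prod = 1 := by
    intro G _ A _ hA n w r g hc ⟨q, hq, hd, hidx⟩ h
    have hAc : IsMulCommutative A :=
      isMulCommutative_iff.2 fun a b => Subtype.ext (hA a a.2 b b.2)
    exact Pool.Agent.X201.KW.met_power hq A n w (coprime_of hq hd) r g hc hidx h
  refine ⟨h1, ?_, ?_, ?_, ?_⟩
  · intro G _ A _ hA n w r g hc htop hdet h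
    obtain ⟨q, hq, hd⟩ := exists_prime hdet
    exact h1 G A hA n w r g hc ⟨q, hq, hd, 0, by rw [htop, Subgroup.index_top, pow_zero]⟩ h
  · intro G _ A _ hA r g hc ⟨x, hx⟩
    have hAc : IsMulCommutative A :=
      isMulCommutative_iff.2 fun a b => Subtype.ext (hA a a.2 b b.2)
    exact Pool.Agent.X201.KW.metab A g hc x hx
  · intro G _ _ N _ n w r g hc ⟨q, hq, hd, hres⟩ h
    exact Pool.Agent.X201.KW.met_free_mod hq N n w (coprime_of hq hd) r g hc hres h
  · intro G _ _ n w r g ⟨q, hq, hd, hres⟩ h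
    exact Pool.Agent.X201.KW.met_free hq n w (coprime_of hq hd) r g hres h

end Pool.Agent.Results.MP_9999b4_al.MetabelianTuples
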