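import Pool.Agent.X201.KW.Ab
import Pool.Agent.X201.KW.FreeRes
import Pool.Agent.X201.KW.Sol

/-!
# Products of conjugacy classes under Kervaire extensions: wreath products and relation modules

Let `V` be an abelian group, `Q` a group which is residually a finite `q`-group, and
`w_0, ..., w_(n-1)` a system of `n` equations in `n` unknowns over a group `G` whose determinant of
exponent sums is not divisible by the prime `q`; `H` is the Kervaire extension of `G` it defines.
Let `Θ : G → V ≀ Q` be a homomorphism onto `Q` in the second coordinate.  If `g_1, ..., g_r` are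
mapped to the base group and `1 ∈ ∏ g_i^H`, then a product of `G`-conjugates of `g_1, ..., g_r` is
mapped to `1` by `Θ`.  For `G = V ≀ Q` this is the implication `1 ∈ ∏ g_i^H → 1 ∈ ∏ g_i^G` for the
tuples in the base group; for a free group `G` and elements of a normal subgroup `N` it gives the
implication modulo `[N,N]`, in particular `G^(j+1)` for elements of the term `G^(j)` of the derived
series and all nonsingular systems.  For `G = V ≀ Q` with `Q` abelian it holds for all tuples such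
that `Q` modulo the subgroup generated by their second coordinates is residually a finite `q`-group.
-/

set_option autoImplicit false

open Monoid
open Pool.Agent.X201.KW (Wr ResQ)

namespace Pool.Agent.Results.MP_9999b4_al.WreathBaseElements

variable {G : Type} [Group G] {n : ℕ}

/-- the exponent sum of `t_i` in an element of `G * F(t_0, ..., t_(n-1))` -/
def expSum (i : Fin n) (w : Coprod G (FreeGroup (Fin n))) : ℤ :=
  Multiplicative.toAdd (Coprod.lift (1 : G →* Multiplicative ℤ)
    (FreeGroup.lift fun k : Fin n => if k = i then Multiplicative.ofAdd (1 : ℤ) else 1) w)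

/-- the determinant of exponent sums -/
def det (w : Fin n → Coprod G (FreeGroup (Fin n))) : ℤ :=
  (Matrix.of fun i j : Fin n => expSum i (w j)).det

/-- the group `H = G * F(t_0, ..., t_(n-1)) / << w_0, ..., w_(n-1) >>` -/
abbrev Ext (w : Fin n → Coprod G (FreeGroup (Fin n))) :=
  Coprod G (FreeGroup (Fin n)) ⧸ Subgroup.normalClosure (Set.range w)

/-- the map `G → H` -/
def toExt (w : Fin n → Coprod G (FreeGroup (Fin n))) : G →* Ext w :=
  (QuotientGroup.mk' (Subgroup.normalClosure (Set.range w))).comp Coprod.inl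

/-- `1 ∈ ∏ g_i^H` -/
def OneInExt (w : Fin n → Coprod G (FreeGroup (Fin n))) {r : ℕ} (g : Fin r → G) : Prop :=
  ∃ h : Fin r → Ext w, (List.ofFn fun i => h i * toExt w (g i) * (h i)⁻¹).prod = 1

theorem coprime_of {q : ℕ} (hq : q.Prime) {d : ℤ} (hd : ¬ (q : ℤ) ∣ d) : IsCoprime d (q : ℤ) := by
  have h1 : IsCoprime (q : ℤ) d := (Nat.prime_iff_prime_int.1 hq).coprime_iff_not_dvd.2 hd
  exact h1.symm

theorem exists_prime {d : ℤ} (hd : d ≠ 0) : ∃ q : ℕ, q.Prime ∧ ¬ (q : ℤ) ∣ d := by
  obtain ⟨q, hq1, hq⟩ := Nat.exists_infinite_primes (d.natAbs + 1)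
  refine ⟨q, hq, fun hdvd => ?_⟩
  have h2 := Nat.le_of_dvd (Int.natAbs_pos.mpr hd) (Int.natCast_dvd.1 hdvd)
  omega

/-- the statement for homomorphisms to wreath products -/
theorem part1 (V Q G : Type) [AddCommGroup V] [Group Q] [Group G] (Θ : G →* Wr V Q)
    (hΘ : ∀ x : Q, ∃ y : G, (Θ y).a = x) (n : ℕ) (w : Fin n → Coprod G (FreeGroup (Fin n)))
    (hq : ∃ q : ℕ, q.Prime ∧ ¬ (q : ℤ) ∣ det w ∧ ResQ q Q) (r : ℕ) (g : Fin r → G)
    (hg : ∀ i, (Θ (g i)).a = 1) (h : OneInExt w g) :
    ∃ x : Fin r → G, Θ (List.ofFn fun i => x i * g i * (x i)⁻¹).prod = 1 := by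
  obtain ⟨q, hq, hd, hQ⟩ := hq
  exact Pool.Agent.X201.KW.key hq hQ Θ hΘ n w (coprime_of hq hd) r g hg h

/-- the statement for free groups -/
theorem part3 (G : Type) [Group G] [IsFreeGroup G] (N : Subgroup G) [N.Normal] (n : ℕ)
    (w : Fin n → Coprod G (FreeGroup (Fin n)))
    (hq : ∃ q : ℕ, q.Prime ∧ ¬ (q : ℤ) ∣ det w ∧ ResQ q (G ⧸ N)) (r : ℕ) (g : Fin r → G)
    (hg : ∀ i, g i ∈ N) (h : OneInExt w g) :
    ∃ x : Fin r → G, (List.ofFn fun i => x i * g i * (x i)⁻¹).prod ∈ ⁅N, N⁆ := by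
  obtain ⟨Θ, h1, h2⟩ := Pool.Agent.X201.KW.magnus G N
  obtain ⟨x, hx⟩ := part1 _ _ G Θ (fun x => by
    obtain ⟨y, rfl⟩ := QuotientGroup.mk_surjective x
    exact ⟨y, h1 y⟩) n w hq r g
    (fun i => by rw [h1]; exact (QuotientGroup.eq_one_iff _).2 (hg i)) h
  exact ⟨x, h2 _ hx⟩

/-- `Wr V Q` is the restricted wreath product of the abelian group `V` and the group `Q`, and
`ResQ q Q` says that every nontrivial element of `Q` is nontrivial in some quotient of `Q` which is a
finite group of order a power of `q`.  `w_j` (`j < n`) is a system over `G` in the unknowns `t_i`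
(`i < n`), and `det w` its determinant of exponent sums.

(1) Let `Θ : G → V ≀ Q` be a homomorphism from an arbitrary group whose second coordinate is onto,
and `q` a prime not dividing `det w` such that `Q` is residually a finite `q`-group.  Let
`g_1, ..., g_r` in `G` have images in the base group.  If `1 ∈ ∏ g_i^H`, then
`Θ (∏ x_i g_i x_i⁻¹) = 1` for some `x_i` in `G`.
(2) Let `G = V ≀ Q` with `Q` abelian, and `g_1, ..., g_r` arbitrary elements of `G` such that
`Q / ⟨second coordinates of the g_i⟩` is residually a finite `q`-group for a prime `q` not dividing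
`det w`.  If `1 ∈ ∏ g_i^H` then `1 ∈ ∏ g_i^G`.
(3) Let `G` be a free group, `N` a normal subgroup such that `G/N` is residually a finite `q`-group
for a prime `q` not dividing `det w`, and `g_1, ..., g_r` in `N`.  If `1 ∈ ∏ g_i^H` then
`∏ x_i g_i x_i⁻¹` lies in `[N,N]` for some `x_i` in `G`.
(4) Let `G` be a free group, `det w ≠ 0` and `g_1, ..., g_r` in the term `G^(j)` of the derived
series.  If `1 ∈ ∏ g_i^H` then `∏ x_i g_i x_i⁻¹` lies in `G^(j+1)` for some `x_i` in `G`.
(5) Free groups and their quotients by the terms of the derived series are residually finite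
`q`-groups for all primes `q` (so that for such `Q`, (1) holds for all nonsingular systems). -/
theorem result :
    (∀ (V Q G : Type) [AddCommGroup V] [Group Q] [Group G] (Θ : G →* Wr V Q),
      (∀ x : Q, ∃ y : G, (Θ y).a = x) → ∀ (n : ℕ) (w : Fin n → Coprod G (FreeGroup (Fin n))),
      (∃ q : ℕ, q.Prime ∧ ¬ (q : ℤ) ∣ det w ∧ ResQ q Q) →
      ∀ (r : ℕ) (g : Fin r → G), (∀ i, (Θ (g i)).a = 1) → OneInExt w g →
      ∃ x : Fin r → G, Θ (List.ofFn fun i => x i * g i * (x i)⁻¹).prod = 1) ∧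
    (∀ (V Q : Type) [AddCommGroup V] [CommGroup Q] (n : ℕ)
      (w : Fin n → Coprod (Wr V Q) (FreeGroup (Fin n))) (r : ℕ) (g : Fin r → Wr V Q),
      (∃ q : ℕ, q.Prime ∧ ¬ (q : ℤ) ∣ det w ∧
        ResQ q (Q ⧸ Subgroup.closure (Set.range fun i => (g i).a))) →
      OneInExt w g → ∃ x : Fin r → Wr V Q, (List.ofFn fun i => x i * g i * (x i)⁻¹).prod = 1) ∧
    (∀ (G : Type) [Group G] [IsFreeGroup G] (N : Subgroup G) [N.Normal] (n : ℕ)
      (w : Fin n → Coprod G (FreeGroup (Fin n))),
      (∃ q : ℕ, q.Prime ∧ ¬ (q : ℤ) ∣ det w ∧ ResQ q (G ⧸ N)) →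
      ∀ (r : ℕ) (g : Fin r → G), (∀ i, g i ∈ N) → OneInExt w g →
      ∃ x : Fin r → G, (List.ofFn fun i => x i * g i * (x i)⁻¹).prod ∈ ⁅N, N⁆) ∧
    (∀ (G : Type) [Group G] [IsFreeGroup G] (j n : ℕ) (w : Fin n → Coprod G (FreeGroup (Fin n))),
      det w ≠ 0 → ∀ (r : ℕ) (g : Fin r → G), (∀ i, g i ∈ derivedSeries G j) → OneInExt w g →
      ∃ x : Fin r → G, (List.ofFn fun i => x i * g i * (x i)⁻¹).prod ∈ derivedSeries G (j + 1)) ∧
    (∀ (α : Type) (q : ℕ), q.Prime → ResQ q (FreeGroup α) ∧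
      ∀ j : ℕ, ResQ q (FreeGroup α ⧸ derivedSeries (FreeGroup α) j)) := by
  refine ⟨fun V Q G _ _ _ Θ hΘ n w hq r g hg h => part1 V Q G Θ hΘ n w hq r g hg h, ?_,
    fun G _ _ N _ n w hq r g hg h => part3 G N n w hq r g hg h, ?_, ?_⟩
  · intro V Q _ _ n w r g ⟨q, hq, hd, hQ⟩ h
    exact Pool.Agent.X201.KW.key2 hq n w (coprime_of hq hd) r g hQ h
  · intro G _ _ j n w hdet r g hg h
    obtain ⟨q, hq, hd⟩ := exists_prime hdet
    exact part3 G (derivedSeries G j) n w
      ⟨q, hq, hd, Pool.Agent.X201.KW.resQ_derived hq G j⟩ r g hg h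
  · intro α q hq
    exact ⟨Pool.Agent.X201.KW.free_resQ hq, fun j => Pool.Agent.X201.KW.resQ_derived hq _ j⟩

end Pool.Agent.Results.MP_9999b4_al.WreathBaseElements
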